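import Pool.Agent.H27.CAL.Stmts2

/-!
# Project CAL, module TAIL
-/

open scoped BigOperators ENNReal Topology
open Filter

namespace CAL

section
variable {𝕜 : Type*} [RCLike 𝕜] {A : Type*} [PartialOrder A] {Y : Type*} [NormedAddCommGroup Y]
  [NormedSpace 𝕜 Y] {τ : TreeLev A}

theorem tail_lev (D : Dat 𝕜 Y τ) {ξ γ : ℕ} (h : D.Anc ξ γ) : D.lev ξ ≤ D.lev γ := by
  induction h with
  | refl => exact le_rfl
  | step hp _ ih => exact ih.trans (D.pred_lev _ _ hp).le

/-- module TAIL -/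
theorem cal_tail (D : Dat 𝕜 Y τ) : TAILStmt D := by
  intro ξ γ x h
  induction h with
  | refl => exact D.co_PX_le x le_rfl
  | step hp ha ih =>
    rename_i ζ γ'
    have h1 : D.lev ξ ≤ D.lev ζ := tail_lev D ha
    have h2 : D.lev ζ < D.lev γ' := D.pred_lev _ _ hp
    rw [D.co_PX_some x (lt_of_le_of_lt h1 h2) hp, min_eq_left h1, sub_self, mul_zero, add_zero]
    exact ih

end

end CAL
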